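import Pool.Agent.E8helper48.RR.Stm

/-!
# LOW: lower bounds for solutions of the recurrence with `al = 0`
-/

set_option autoImplicit false

namespace Pool.Agent.E8helper38.RR

open Filter Topology RR48

variable {A B D : ℝ} {x : ℕ → ℝ}

theorem stepm (h : IsSol 0 A B D x) (n : ℕ) :
    x (n + 3) * (A + B * x (n + 2) + x (n + 1) + D * x n) = x (n + 1) := by
  rw [h.step n, div_mul_cancel₀ _ (h.den n).ne', zero_add]

theorem conv_of_dec (h0 : ∀ n, 0 < x n) (k : ℕ) (h : ∀ m, k ≤ m → x (m + 2) ≤ x m) : Conv x := by
  have he : ∃ p, Tendsto (fun i => x (2 * (i + k))) atTop (𝓝 p) := by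
    refine ⟨_, tendsto_atTop_ciInf ?_ ?_⟩
    · refine antitone_nat_of_succ_le fun i => ?_
      have h1 := h (2 * (i + k)) (by omega)
      have e : 2 * (i + 1 + k) = 2 * (i + k) + 2 := by ring
      rw [e]; exact h1
    · exact ⟨0, by rintro _ ⟨i, rfl⟩; exact (h0 _).le⟩
  have ho : ∃ q, Tendsto (fun i => x (2 * (i + k) + 1)) atTop (𝓝 q) := by
    refine ⟨_, tendsto_atTop_ciInf ?_ ?_⟩
    · refine antitone_nat_of_succ_le fun i => ?_
      have h1 := h (2 * (i + k) + 1) (by omega)
      have e : 2 * (i + 1 + k) + 1 = 2 * (i + k) + 1 + 2 := by ring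
      rw [e]; exact h1
    · exact ⟨0, by rintro _ ⟨i, rfl⟩; exact (h0 _).le⟩
  obtain ⟨p, hp⟩ := he
  obtain ⟨q, hq⟩ := ho
  refine ⟨p, q, ?_, ?_⟩
  · exact (tendsto_add_atTop_iff_nat (f := fun i => x (2 * i)) k).1 hp
  · exact (tendsto_add_atTop_iff_nat (f := fun i => x (2 * i + 1)) k).1 hq

theorem dec (h0 : ∀ n, 0 < x n)
    (H2 : ∀ n, ¬ (x (n + 2) ≤ x n ∧ x (n + 1) ≤ x (n + 3) ∧ x (n + 4) ≤ x (n + 2)))
    (k : ℕ) (h : ∀ j, x (k + 2 * j + 2) < x (k + 2 * j)) : Conv x := by
  refine conv_of_dec h0 k fun m hm => ?_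
  obtain ⟨j, hj | hj⟩ : ∃ j, m = k + 2 * j ∨ m = k + 2 * j + 1 := ⟨(m - k) / 2, by omega⟩
  · subst hj; exact (h j).le
  · subst hj
    by_contra hc
    push Not at hc
    apply H2 (k + 2 * j)
    refine ⟨(h j).le, hc.le, ?_⟩
    have h1 := h (j + 1)
    have e1 : k + 2 * (j + 1) = k + 2 * j + 2 := by ring
    rw [e1] at h1
    exact h1.le

theorem fin_low (h0 : ∀ n, 0 < x n) (N : ℕ) : ∃ c > 0, ∀ n < N, c ≤ x n := by
  induction N with
  | zero => exact ⟨1, one_pos, fun n hn => absurd hn (by omega)⟩
  | succ N ih =>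
    obtain ⟨c, hc, h⟩ := ih
    refine ⟨min c (x N), lt_min hc (h0 N), fun n hn => ?_⟩
    rcases Nat.lt_succ_iff_lt_or_eq.1 hn with h1 | h1
    · exact (min_le_left _ _).trans (h n h1)
    · rw [h1]; exact min_le_right _ _

/-- three-step induction from `n0` on -/
theorem three_ind {P : ℕ → Prop} (n0 : ℕ) (h0 : P n0) (h1 : P (n0 + 1)) (h2 : P (n0 + 2))
    (hs : ∀ n, n0 ≤ n → P n → P (n + 1) → P (n + 2) → P (n + 3)) : ∀ n, n0 ≤ n → P n := by
  have key : ∀ i, P (n0 + i) ∧ P (n0 + i + 1) ∧ P (n0 + i + 2) := by
    intro i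
    induction i with
    | zero => exact ⟨h0, h1, h2⟩
    | succ i ih =>
      obtain ⟨a, b, c⟩ := ih
      have d := hs (n0 + i) (by omega) a b c
      exact ⟨b, c, d⟩
  intro n hn
  obtain ⟨i, rfl⟩ := Nat.exists_eq_add_of_le hn
  exact (key i).1

/-- lower bound in one step: the other terms contribute at most `1 - ph` -/
theorem low_step {u u' s ph : ℝ} (hu : ph ≤ u) (hph : 0 < ph) (hs : s ≤ 1 - ph) (hs0 : 0 ≤ s)
    (he : u' * (s + u) = u) : ph ≤ u' := by
  by_contra hc
  push Not at hc
  have h1 : 0 < s + u := by linarith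
  have h2 : u < ph * (s + u) := by
    calc u = u' * (s + u) := he.symm
      _ < ph * (s + u) := mul_lt_mul_of_pos_right hc h1
  nlinarith

/-- upper bound in one step -/
theorem up_step {u u' s T : ℝ} (hu : u ≤ T) (hT : 0 ≤ T) (hT1 : T ≤ 1) (hs : 1 - T ≤ s)
    (hu0 : 0 < u) (he : u' * (s + u) = u) : u' ≤ T := by
  by_contra hc
  push Not at hc
  have h1 : 0 < s + u := by linarith
  have h2 : T * (s + u) < u := by
    calc T * (s + u) < u' * (s + u) := mul_lt_mul_of_pos_right hc h1
      _ = u := he
  nlinarith [mul_nonneg hT (sub_nonneg.2 hs), mul_nonneg (sub_nonneg.2 hT1) (sub_nonneg.2 hu)]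

theorem t_LOW : RR48.S_LOW := by
  intro A B D x hA hA1 hB hD h h0 hx1 H1 H2
  have hS : 0 < 1 - A := by linarith
  rcases le_or_gt (B + D) 1 with hBD | hBD
  · -- `B + D ≤ 1`
    have hlt : ∀ n, x (n + 1) ≤ 1 - A → x (n + 3) < 1 - A := by
      intro n hn
      by_contra hc
      push Not at hc
      have e := stepm h n
      have p1 : 0 ≤ B * x (n + 2) := mul_nonneg hB (h0 _).le
      have p2 : 0 < D * x n := mul_pos hD (h0 _)
      have p3 := h.den n
      have p4 : (1 - A) * (A + B * x (n + 2) + x (n + 1) + D * x n) ≤ x (n + 1) := by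
        calc (1 - A) * (A + B * x (n + 2) + x (n + 1) + D * x n)
            ≤ x (n + 3) * (A + B * x (n + 2) + x (n + 1) + D * x n) :=
              mul_le_mul_of_nonneg_right hc p3.le
          _ = x (n + 1) := e
      have p5 : 0 ≤ A * ((1 - A) - x (n + 1)) := mul_nonneg hA (by linarith)
      have p6 : 0 < (1 - A) * (B * x (n + 2) + D * x n) := mul_pos hS (by linarith)
      nlinarith
    by_cases hk : ∃ k, ∀ j, 1 - A ≤ x (k + 1 + 2 * j)
    · right
      obtain ⟨k, hk⟩ := hk
      refine dec h0 H2 (k + 1) fun j => ?_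
      have e1 := stepm h (k + 2 * j)
      have e2 := hk j
      have e : k + 1 + 2 * j = k + 2 * j + 1 := by ring
      rw [e] at e2 ⊢
      have p1 : 0 ≤ B * x (k + 2 * j + 2) := mul_nonneg hB (h0 _).le
      have p2 : 0 < D * x (k + 2 * j) := mul_pos hD (h0 _)
      have p3 : 1 < A + B * x (k + 2 * j + 2) + x (k + 2 * j + 1) + D * x (k + 2 * j) := by linarith
      show x (k + 2 * j + 3) < x (k + 2 * j + 1)
      have p4 := h0 (k + 2 * j + 3)
      nlinarith
    · left
      push Not at hk
      obtain ⟨j1, h1⟩ := hk 0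
      obtain ⟨j2, h2⟩ := hk 1
      have hall : ∀ m, x (m + 1) < 1 - A → ∀ i, x (m + 1 + 2 * i) < 1 - A := by
        intro m hm i
        induction i with
        | zero => simpa using hm
        | succ i ih =>
          have := hlt (m + 2 * i) (by
            have e : m + 2 * i + 1 = m + 1 + 2 * i := by ring
            rw [e]; exact ih.le)
          have e : m + 1 + 2 * (i + 1) = m + 2 * i + 3 := by ring
          rw [e]; exact this
      set n0 := 2 * (j1 + j2) + 2 with hn0
      have hSn : ∀ n, n0 ≤ n → x n < 1 - A := by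
        intro n hn
        obtain ⟨i, hi | hi⟩ : ∃ i, n = 0 + 1 + 2 * j1 + 2 * i ∨ n = 1 + 1 + 2 * j2 + 2 * i := by
          rcases Nat.even_or_odd n with ⟨t, ht⟩ | ⟨t, ht⟩
          · exact ⟨t - j2 - 1, by omega⟩
          · exact ⟨t - j1, by omega⟩
        · have := hall (2 * j1) (by have e : 2 * j1 + 1 = 0 + 1 + 2 * j1 := by ring
                                    rw [e]; exact h1) i
          have e : n = 2 * j1 + 1 + 2 * i := by omega
          rw [e]; exact this
        · have := hall (1 + 2 * j2) (by have e : 1 + 2 * j2 + 1 = 1 + 1 + 2 * j2 := by ring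
                                        rw [e]; exact h2) i
          have e : n = 1 + 2 * j2 + 1 + 2 * i := by omega
          rw [e]; exact this
      -- the lower bound from `n0` on
      have hph : ∃ ph > 0, ∀ n, n0 ≤ n → ph ≤ x n := by
        rcases hBD.lt_or_eq with hlt1 | heq
        · set ph := min (min (x n0) (min (x (n0 + 1)) (x (n0 + 2)))) ((1 - B - D) * (1 - A)) with hph
          have q0 : 0 < ph := by
            refine lt_min (lt_min (h0 _) (lt_min (h0 _) (h0 _))) (mul_pos (by linarith) hS)
          refine ⟨ph, q0, three_ind n0 ?_ ?_ ?_ ?_⟩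
          · exact (min_le_left _ _).trans (min_le_left _ _)
          · exact (min_le_left _ _).trans ((min_le_right _ _).trans (min_le_left _ _))
          · exact (min_le_left _ _).trans ((min_le_right _ _).trans (min_le_right _ _))
          · intro n hn a b c
            have q1 := hSn n hn
            have q2 := hSn (n + 2) (by omega)
            have q3 : ph ≤ (1 - B - D) * (1 - A) := min_le_right _ _
            have q4 : B * x (n + 2) ≤ B * (1 - A) := mul_le_mul_of_nonneg_left q2.le hB
            have q5 : D * x n ≤ D * (1 - A) := mul_le_mul_of_nonneg_left q1.le hD.le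
            have q6 : 0 ≤ B * x (n + 2) := mul_nonneg hB (h0 _).le
            have q7 : 0 ≤ D * x n := mul_nonneg hD.le (h0 _).le
            refine low_step (s := A + B * x (n + 2) + D * x n) b q0 (by nlinarith) (by linarith) ?_
            linear_combination stepm h n
        · set ph := min (min (x n0) (min (x (n0 + 1)) (x (n0 + 2))))
            (min (1 - A - x n0) (min (1 - A - x (n0 + 1)) (1 - A - x (n0 + 2)))) with hph
          have q0 : 0 < ph := by
            have r0 := hSn n0 le_rfl
            have r1 := hSn (n0 + 1) (by omega)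
            have r2 := hSn (n0 + 2) (by omega)
            refine lt_min (lt_min (h0 _) (lt_min (h0 _) (h0 _)))
              (lt_min (by linarith) (lt_min (by linarith) (by linarith)))
          have q : ∀ n, n0 ≤ n → ph ≤ x n ∧ x n ≤ 1 - A - ph := by
            refine three_ind n0 ?_ ?_ ?_ ?_
            · refine ⟨(min_le_left _ _).trans (min_le_left _ _), ?_⟩
              have : ph ≤ 1 - A - x n0 := (min_le_right _ _).trans (min_le_left _ _)
              linarith
            · refine ⟨(min_le_left _ _).trans ((min_le_right _ _).trans (min_le_left _ _)), ?_⟩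
              have : ph ≤ 1 - A - x (n0 + 1) :=
                (min_le_right _ _).trans ((min_le_right _ _).trans (min_le_left _ _))
              linarith
            · refine ⟨(min_le_left _ _).trans ((min_le_right _ _).trans (min_le_right _ _)), ?_⟩
              have : ph ≤ 1 - A - x (n0 + 2) :=
                (min_le_right _ _).trans ((min_le_right _ _).trans (min_le_right _ _))
              linarith
            · rintro n hn ⟨a1, a2⟩ ⟨b1, b2⟩ ⟨c1, c2⟩
              have q4 : B * x (n + 2) ≤ B * (1 - A - ph) := mul_le_mul_of_nonneg_left c2 hB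
              have q5 : D * x n ≤ D * (1 - A - ph) := mul_le_mul_of_nonneg_left a2 hD.le
              have q4' : B * ph ≤ B * x (n + 2) := mul_le_mul_of_nonneg_left c1 hB
              have q5' : D * ph ≤ D * x n := mul_le_mul_of_nonneg_left a1 hD.le
              have q6 : 0 ≤ B * x (n + 2) := mul_nonneg hB (h0 _).le
              have q7 : 0 ≤ D * x n := mul_nonneg hD.le (h0 _).le
              have q8 : B * (1 - A - ph) + D * (1 - A - ph) = 1 - A - ph := by
                rw [← add_mul, heq, one_mul]
              have q9 : B * ph + D * ph = ph := by rw [← add_mul, heq, one_mul]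
              have e : x (n + 3) * ((A + B * x (n + 2) + D * x n) + x (n + 1)) = x (n + 1) := by
                linear_combination stepm h n
              refine ⟨low_step (s := A + B * x (n + 2) + D * x n) b1 q0 (by linarith)
                (by linarith) e, ?_⟩
              exact up_step (s := A + B * x (n + 2) + D * x n) b2 (by linarith [h0 (n + 1)])
                (by linarith) (by linarith) (h0 _) e
          exact ⟨ph, q0, fun n hn => (q n hn).1⟩
      obtain ⟨ph, hph0, hph⟩ := hph
      obtain ⟨c, hc, hc'⟩ := fin_low h0 n0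
      refine ⟨min c ph, lt_min hc hph0, fun n => ?_⟩
      rcases lt_or_ge n n0 with hn | hn
      · exact (min_le_left _ _).trans (hc' n hn)
      · exact (min_le_right _ _).trans (hph n hn)
  · -- `B + D > 1`
    have hBD0 : 0 < B + D := by linarith
    set Qm := A + B + 1 + D with hQm
    have hQ1 : 1 ≤ Qm := by rw [hQm]; linarith
    have hback : ∀ n, x (n + 1) ≤ Qm * x (n + 3) := by
      intro n
      have e := stepm h n
      have p1 : B * x (n + 2) ≤ B * 1 := mul_le_mul_of_nonneg_left (hx1 _) hB
      have p2 : D * x n ≤ D * 1 := mul_le_mul_of_nonneg_left (hx1 _) hD.le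
      have p3 : A + B * x (n + 2) + x (n + 1) + D * x n ≤ Qm := by
        have := hx1 (n + 1); rw [hQm]; linarith
      calc x (n + 1) = x (n + 3) * (A + B * x (n + 2) + x (n + 1) + D * x n) := e.symm
        _ ≤ x (n + 3) * Qm := mul_le_mul_of_nonneg_left p3 (h0 _).le
        _ = Qm * x (n + 3) := mul_comm _ _
    obtain ⟨sg, hsg0, hsg1, hsg2⟩ : ∃ sg, 0 < sg ∧ sg < 1 - A ∧ 1 < A + (B + D) * (1 - A - sg) := by
      refine ⟨min ((1 - A) / 2) ((B + D - 1) * (1 - A) / (2 * (B + D))), ?_, ?_, ?_⟩
      · refine lt_min (by linarith) (div_pos (mul_pos (by linarith) hS) (by linarith))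
      · exact (min_le_left _ _).trans_lt (by linarith)
      · have r1 : min ((1 - A) / 2) ((B + D - 1) * (1 - A) / (2 * (B + D))) ≤
            (B + D - 1) * (1 - A) / (2 * (B + D)) := min_le_right _ _
        have r2 : (B + D) * min ((1 - A) / 2) ((B + D - 1) * (1 - A) / (2 * (B + D))) ≤
            (B + D) * ((B + D - 1) * (1 - A) / (2 * (B + D))) :=
          mul_le_mul_of_nonneg_left r1 hBD0.le
        have r3 : (B + D) * ((B + D - 1) * (1 - A) / (2 * (B + D))) = (B + D - 1) * (1 - A) / 2 := by
          field_simp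
        have r4 : 0 < (B + D - 1) * (1 - A) := mul_pos (by linarith) hS
        nlinarith
    set ep := sg / ((B + D) * Qm ^ 2) with hep
    have hQ2 : 0 < Qm ^ 2 := by positivity
    have hep0 : 0 < ep := div_pos hsg0 (mul_pos hBD0 hQ2)
    have hepsg : (B + D) * Qm ^ 2 * ep = sg := by
      rw [hep, mul_div_cancel₀]
      exact (mul_pos hBD0 hQ2).ne'
    have hep1 : ep ≤ Qm * ep := by nlinarith
    have hep2 : Qm * ep ≤ Qm ^ 2 * ep := by nlinarith
    have small : ∀ a b : ℝ, a ≤ Qm ^ 2 * ep → b ≤ Qm ^ 2 * ep → B * a + D * b ≤ sg := by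
      intro a b ha hb
      have r1 : B * a ≤ B * (Qm ^ 2 * ep) := mul_le_mul_of_nonneg_left ha hB
      have r2 : D * b ≤ D * (Qm ^ 2 * ep) := mul_le_mul_of_nonneg_left hb hD.le
      nlinarith
    have hY0 : 0 < 1 - A - sg := by linarith
    have geY : ∀ n, 1 - A - sg ≤ x (n + 1) → x (n + 2) ≤ Qm ^ 2 * ep → x n ≤ Qm ^ 2 * ep →
        1 - A - sg ≤ x (n + 3) := by
      intro n a b c
      have r1 := small _ _ b c
      have q6 : 0 ≤ B * x (n + 2) := mul_nonneg hB (h0 _).le
      have q7 : 0 ≤ D * x n := mul_nonneg hD.le (h0 _).le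
      refine low_step (s := A + B * x (n + 2) + D * x n) a hY0 (by linarith) (by linarith) ?_
      linear_combination stepm h n
    by_cases hcase : ∀ k, 6 ≤ k → ep ≤ x k ∨ x (k - 2) ≤ x k
    · left
      obtain ⟨c, hc, hc'⟩ := fin_low h0 6
      refine ⟨min c ep, lt_min hc hep0, fun n => ?_⟩
      induction n using Nat.strong_induction_on with
      | _ n ih =>
        rcases lt_or_ge n 6 with hn | hn
        · exact (min_le_left _ _).trans (hc' n hn)
        · rcases hcase n hn with h1 | h1
          · exact (min_le_right _ _).trans h1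
          · exact (ih (n - 2) (by omega)).trans h1
    · right
      push Not at hcase
      obtain ⟨k', hk6, hk1, hk2⟩ := hcase
      obtain ⟨m, rfl⟩ : ∃ m, k' = m + 6 := ⟨k' - 6, by omega⟩
      have e2 : m + 6 - 2 = m + 4 := by omega
      rw [e2] at hk2
      have b4 : x (m + 4) ≤ Qm * ep := by
        have := hback (m + 3)
        have r : Qm * x (m + 6) ≤ Qm * ep := mul_le_mul_of_nonneg_left hk1.le (by linarith)
        exact this.trans r
      have b2 : x (m + 2) ≤ Qm ^ 2 * ep := by
        have := hback (m + 1)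
        have r : Qm * x (m + 4) ≤ Qm * (Qm * ep) := mul_le_mul_of_nonneg_left b4 (by linarith)
        calc x (m + 2) ≤ Qm * x (m + 4) := this
          _ ≤ Qm * (Qm * ep) := r
          _ = Qm ^ 2 * ep := by ring
      have b4' : x (m + 4) ≤ Qm ^ 2 * ep := b4.trans hep2
      have b6' : x (m + 6) ≤ Qm ^ 2 * ep := hk1.le.trans (hep1.trans hep2)
      -- `x (m + 5) ≥ Y`
      have hY5 : 1 - A - sg ≤ x (m + 5) := by
        by_cases hd : x (m + 5) < x (m + 3)
        · have e := stepm h (m + 2)
          have e' : x (m + 5) * (A + B * x (m + 4) + x (m + 3) + D * x (m + 2)) = x (m + 3) := e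
          have q1 : 1 < A + B * x (m + 4) + x (m + 3) + D * x (m + 2) := by
            by_contra hc
            push Not at hc
            have : x (m + 5) * (A + B * x (m + 4) + x (m + 3) + D * x (m + 2)) ≤ x (m + 5) * 1 :=
              mul_le_mul_of_nonneg_left hc (h0 _).le
            linarith
          have q2 := small _ _ b4' b2
          exact geY (m + 2) (show 1 - A - sg ≤ x (m + 3) by linarith) b4' b2
        · push Not at hd
          have hd2 : x (m + 7) < x (m + 5) := by
            by_contra hc
            push Not at hc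
            exact H1 (m + 3) ⟨hd, hk2.le, hc⟩
          have e := stepm h (m + 4)
          have e' : x (m + 7) * (A + B * x (m + 6) + x (m + 5) + D * x (m + 4)) = x (m + 5) := e
          have q1 : 1 < A + B * x (m + 6) + x (m + 5) + D * x (m + 4) := by
            by_contra hc
            push Not at hc
            have : x (m + 7) * (A + B * x (m + 6) + x (m + 5) + D * x (m + 4)) ≤ x (m + 7) * 1 :=
              mul_le_mul_of_nonneg_left hc (h0 _).le
            linarith
          have q2 := small _ _ b6' b4'
          linarith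
      have hY7 : 1 - A - sg ≤ x (m + 7) := geY (m + 4) hY5 b6' b4'
      have key : ∀ j, x (m + 6 + 2 * j) < ep ∧ 1 - A - sg ≤ x (m + 5 + 2 * j) ∧
          1 - A - sg ≤ x (m + 7 + 2 * j) ∧ x (m + 6 + 2 * j + 2) < x (m + 6 + 2 * j) := by
        have one : ∀ n, x (n + 1) < ep → 1 - A - sg ≤ x n → 1 - A - sg ≤ x (n + 2) →
            x (n + 3) < x (n + 1) := by
          intro n a b c
          have e := stepm h n
          have r1 : B * (1 - A - sg) ≤ B * x (n + 2) := mul_le_mul_of_nonneg_left c hB
          have r2 : D * (1 - A - sg) ≤ D * x n := mul_le_mul_of_nonneg_left b hD.le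
          have r3 := h0 (n + 1)
          have r4 : 1 < A + B * x (n + 2) + x (n + 1) + D * x n := by nlinarith
          have r5 := h0 (n + 3)
          nlinarith
        intro j
        induction j with
        | zero => exact ⟨hk1, hY5, hY7, one (m + 5) hk1 hY5 hY7⟩
        | succ j ih =>
          obtain ⟨a, b, c, d⟩ := ih
          have f1 : m + 6 + 2 * (j + 1) = m + 6 + 2 * j + 2 := by ring
          have f2 : m + 5 + 2 * (j + 1) = m + 7 + 2 * j := by ring
          have f3 : m + 7 + 2 * (j + 1) = m + 6 + 2 * j + 3 := by ring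
          have f4 : m + 7 + 2 * j = m + 6 + 2 * j + 1 := by ring
          rw [f1, f2, f3]
          have a' : x (m + 6 + 2 * j + 2) < ep := d.trans a
          have c' : 1 - A - sg ≤ x (m + 6 + 2 * j + 3) := by
            refine geY (m + 6 + 2 * j) (f4 ▸ c) (a'.le.trans (hep1.trans hep2))
              (a.le.trans (hep1.trans hep2))
          refine ⟨a', c, c', ?_⟩
          refine one (m + 6 + 2 * j + 1) a' (f4 ▸ c) c'
      exact dec h0 H2 (m + 6) fun j => (key j).2.2.2

end Pool.Agent.E8helper38.RR
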